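import Pool.Agent.Helper38.ND.GoalsC
import Pool.Agent.Helper11.PB.MOMB

/-!
# Project ND (MP_fc6b1e_nt), packet N_MB: the moment theorems in class form, natural density
-/

set_option autoImplicit false

namespace Pool.Agent.Helper98.ND

open NumberField Polynomial Module IsDedekindDomain
open Pool.Agent.Helper51.RP Pool.Agent.Helper42.RD Pool.Agent.Helper42.PP Pool.Agent.Helper42.PP1
open Pool.Agent.Helper51.SigLeo Pool.Agent.Helper11.LE Pool.Agent.Helper11.PP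
open Pool.Agent.Helper17.PP (Sys)
open Pool.Agent.Helper17.PP0 (Hyp₀)
open Pool.Agent.Helper42.PB Pool.Agent.Helper76.PB
open Pool.Agent.Helper79.PP (nice_val)
open Pool.Agent.Helper64.PP (rank_le)
open Pool.Agent.Helper94.PP1 (rank1')
open Pool.Agent.Helper11.PB (BdB V_HYP V_HYP0 M_EXT1 tc_up)
open Pool.Agent.Helper38.ND

theorem hyp0_of_hyp {p : ℕ} {B B₀ k U Λ C : Type} [Field k] [Fintype k] [Algebra (ZMod p) k]
    [AddCommGroup U] [Module k U] [AddCommGroup Λ] [Module k Λ] [AddCommGroup C]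
    {S : Sys p B B₀ k U Λ C} {ψ : AddChar k ℂ} {ψ₁ : AddChar (ZMod p) ℂ} {g : ℝ → ℝ} {K : ℕ}
    (h : S.Hyp ψ ψ₁ g K) : Hyp₀ S ψ g K :=
  { one_le := h.one_le
    ψ_ne := h.ψ_ne
    che := h.che
    g_one := h.g_one
    g_mono := h.g_mono
    ht := h.ht
    mers := h.mers
    sm := h.sm
    kum := h.kum
    bl₁ := h.bl₁ }

/-- A bound with a constant implies the bound with a larger constant. -/
theorem up_le {ι : Type} (s t : Finset ι) (f : ι → ℝ) (hf : ∀ b, 0 ≤ f b) {a θ e : ℝ} (h : a ≤ θ)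
    (h1 : ∑ b ∈ s, f b ≤ a * ∑ b ∈ t, f b + e) : ∑ b ∈ s, f b ≤ θ * ∑ b ∈ t, f b + e := by
  have h2 : 0 ≤ ∑ b ∈ t, f b := Finset.sum_nonneg fun b _ => hf b
  have h3 := mul_le_mul_of_nonneg_right h h2
  linarith

open Classical in
theorem mtw_le (hMT : MTW) {p : ℕ} [Fact p.Prime] {B B₀ k U Λ C : Type} [Field k] [Fintype k]
    [Algebra (ZMod p) k] [AddCommGroup U] [Module k U] [Fintype U] [AddCommGroup Λ] [Module k Λ]
    [Fintype Λ] [AddCommGroup C] [Finite C] {S : Sys p B B₀ k U Λ C} {ψ : AddChar k ℂ}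
    {ψ₁ : AddChar (ZMod p) ℂ} {g : ℝ → ℝ} {K : ℕ} (hS : S.Hyp ψ ψ₁ g K) {θ : ℝ}
    (hθ : ((Fintype.card U : ℝ) / Fintype.card Λ) *
      (Fintype.card k / (p * (Fintype.card k - 1))) ≤ θ) :
    ∀ w : ℝ → ℝ, WF w → ∀ ε : ℝ, 0 < ε → ∃ X₀ : ℝ, ∀ X : ℝ, X₀ ≤ X →
    ∀ P : Finset B, ∑ b ∈ P.powerset with (S.Fam b ∧ S.Bad b), w (S.nm b / X) ≤
      θ * ∑ b ∈ P.powerset with S.Fam b, w (S.nm b / X) + ε * (X * g X) := by
  intro w hw ε hε
  obtain ⟨X₀, h0⟩ := hMT p B B₀ k U Λ C S ψ ψ₁ g K hS w hw ε hε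
  refine ⟨max X₀ 1, fun X hX P => ?_⟩
  have hX0 : X₀ ≤ X := (le_max_left _ _).trans hX
  have hXp : 0 < X := lt_of_lt_of_le one_pos ((le_max_right _ _).trans hX)
  exact up_le _ _ (fun b => w (S.nm b / X)) (fun b => hw.nonneg _ (by positivity)) hθ (h0 X hX0 P)

open Classical in
theorem mt0w_le (hMT : MT₀W) {p : ℕ} [Fact p.Prime] {B B₀ k U Λ C : Type} [Field k] [Fintype k]
    [Algebra (ZMod p) k] [AddCommGroup U] [Module k U] [Fintype U] [AddCommGroup Λ] [Module k Λ]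
    [Fintype Λ] [AddCommGroup C] [Finite C] {S : Sys p B B₀ k U Λ C} {ψ : AddChar k ℂ}
    {g : ℝ → ℝ} {K : ℕ} (hS : Hyp₀ S ψ g K) {θ : ℝ}
    (hθ : ((Fintype.card U : ℝ) / Fintype.card Λ) *
      (Fintype.card k / (Fintype.card k - 1)) ≤ θ) :
    ∀ w : ℝ → ℝ, WF w → ∀ ε : ℝ, 0 < ε → ∃ X₀ : ℝ, ∀ X : ℝ, X₀ ≤ X →
    ∀ P : Finset B, ∑ b ∈ P.powerset with (S.Fam b ∧ S.Bad b), w (S.nm b / X) ≤
      θ * ∑ b ∈ P.powerset with S.Fam b, w (S.nm b / X) + ε * (X * g X) := by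
  intro w hw ε hε
  obtain ⟨X₀, h0⟩ := hMT p B B₀ k U Λ C S ψ g K hS w hw ε hε
  refine ⟨max X₀ 1, fun X hX P => ?_⟩
  have hX0 : X₀ ≤ X := (le_max_left _ _).trans hX
  have hXp : 0 < X := lt_of_lt_of_le one_pos ((le_max_right _ _).trans hX)
  exact up_le _ _ (fun b => w (S.nm b / X)) (fun b => hw.nonneg _ (by positivity)) hθ (h0 X hX0 P)

theorem mombn (hMOM : N_MOMW) (hABS : N_ABS) (hANH : N_ANH) (hANA : N_ANA) (hBRU : N_BRU)
    (hBRK : N_BRK) (hMT : MTW) (hHYP : V_HYP) (hEXB : V_EXB) (hEXT : V_EXT) (hALN : V_ALN') :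
    MOMBN := by
  classical
  intro p hpF L K M K₁ M₁ J M₂ _ _ _ _ _ _ _ _ _ _ _ _ _ _ _ _ _ _ _ _ _ _ _ _ ε δ P a₀ hs hnt
    h1 m ζ Φ hPhi hfr htor T hTc hd
  have hp : p.Prime := hpF.out
  have hirr : Fact (Irreducible P) := ⟨hs.sit.irr⟩
  have hP0 : P ≠ 0 := hs.sit.irr.ne_zero
  have hfinA : Module.Finite (ZMod p) (AdjoinRoot P) := (AdjoinRoot.powerBasis hP0).finite
  have hfA : Finite (AdjoinRoot P) := Module.finite_of_finite (ZMod p)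
  let instA : Fintype (AdjoinRoot P) := Fintype.ofFinite _
  have hcard : Fintype.card (AdjoinRoot P) = p ^ P.natDegree := by
    rw [Module.card_eq_pow_finrank (K := ZMod p) (V := AdjoinRoot P), ZMod.card,
      (AdjoinRoot.powerBasis hP0).finrank, AdjoinRoot.powerBasis_dim]
  have hne : Nonempty (AlgebraicClosure ℚ →+* ℂ_[p]) :=
    Pool.Agent.Helper35.RD.nonempty_hom ℚ ℂ_[p]
  have hcK : IsTotallyComplex K₁ := tc_up K K₁
  have hcM : IsTotallyComplex M₁ := tc_up K M₁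
  have := hs.sit.gM
  have := hs.sit.st1
  have := hs.sit.st2
  have hord : orderOf δ = m := hs.sit.ord.trans hfr
  have hPX : AdjoinRoot.root P ≠ 1 := by
    intro h
    have h2 := hPhi.cop 1 one_pos hPhi.one_lt (one_dvd _)
    have h3 : P ∣ X ^ 1 - 1 := by
      rw [← AdjoinRoot.mk_eq_zero, pow_one, map_sub, AdjoinRoot.mk_X, map_one, h, sub_self]
    exact hs.sit.irr.not_isUnit (h2.isUnit_of_dvd' dvd_rfl h3)
  obtain ⟨B, ⟨D⟩⟩ := hEXB p K M K₁ M₁ J M₂ ε δ P a₀ hs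
  obtain ⟨g, K₀, hslow, hH⟩ := hHYP p K M K₁ M₁ J M₂ ε δ P a₀ hs hnt h1 B D
  obtain ⟨hSf, hst, hSp, -, -, -, -⟩ := Pool.Agent.Helper16.PP.p_upr p K M B.S
  obtain ⟨s₀, hs₀⟩ := Pool.Agent.Helper90.RP.Dual.dvd_ncard (K := K) m hfr
    {w ∈ up M B.S | FreeP K w} (hSf.subset fun w hw => hw.1)
    (fun w hw v hv => ⟨hst w hw.1 v hv, free_of_conj hv hw.2⟩)
    (fun w hw => hw.2)
  have hr : B.r ≤ T.ncard + s₀ :=
    rank_le Pool.Agent.Helper30.PP.p_fun hPhi hord hfr hd htor B hSf hst hs₀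
  have lob : S_LOB := Pool.Agent.Helper32.RP.s_lob Pool.Agent.Helper90.RP.s_sub
    Pool.Agent.Helper59.RP.s_bin (Pool.Agent.Helper39.RP.s_sig Pool.Agent.Helper95.RP.s_lat)
    Pool.Agent.Helper99.RP.s_prm
  have hp1 : (1 : ℝ) < p := by exact_mod_cast hp.one_lt
  have hQ1 : (1 : ℝ) < (p : ℝ) ^ P.natDegree := by
    have h := one_lt_pow₀ hp1 hs.sit.irr.natDegree_pos.ne'
    exact h
  have hθ : (0 : ℝ) ≤ (p : ℝ) ^ P.natDegree / (p * ((p : ℝ) ^ P.natDegree - 1)) := by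
    have h2 : (0 : ℝ) ≤ (p : ℝ) ^ P.natDegree - 1 := by linarith
    positivity
  refine hMOM hABS p L K M K₁ M₁ J M₂ ε δ P a₀ hs T B D g K₀ hslow _ hθ (T.ncard + s₀) ?_
  intro aτ haτ hnice
  obtain ⟨E⟩ := hEXT p ℂ_[p] K M K₁ M₁ J M₂ ε δ P a₀ hs L T B D aτ haτ (fun Q hQ =>
    nice_val hnice Q ((Q.valuation_lt_one_iff_mem (K := K₁) (p : 𝓞 K₁)).1 (by simpa using hQ)))
    (T.ncard + s₀) (fun 𝔪₀ v hv =>
      lob p ℂ_[p] hne L K M m s₀ δ ζ Φ P hPhi hord hfr T hTc (up M B.S) 𝔪₀ v hv hs₀)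
  obtain ⟨ψ, ψ₁, K', hHyp, c, X₁, hc, hlow⟩ := hH (T.ncard + s₀) E.toTauF aτ haτ
    (hALN p K M K₁ M₁ J M₂ ε δ P a₀ hs hPX B D _ E.toTauF)
  refine (fun h => ⟨E, hANH hANA hBRU hBRK p K M K₁ M₁ ε δ P B _ E.toTauF
    (Spl M₂ B.S) D.s0 aτ ψ g K' (hyp0_of_hyp hHyp) K₀ hslow c X₁ hc hlow
    ((p : ℝ) ^ P.natDegree / (p * ((p : ℝ) ^ P.natDegree - 1))) hθ (mtw_le hMT hHyp h)⟩) ?_
  have h3 : (Fintype.card (Fin B.r → AdjoinRoot P) : ℝ) = ((p : ℝ) ^ P.natDegree) ^ B.r := by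
    rw [Fintype.card_fun, hcard, Fintype.card_fin]
    push_cast
    ring
  have h4 : (Fintype.card (Fin (T.ncard + s₀) → AdjoinRoot P) : ℝ) =
      ((p : ℝ) ^ P.natDegree) ^ (T.ncard + s₀) := by
    rw [Fintype.card_fun, hcard, Fintype.card_fin]
    push_cast
    ring
  rw [h3, h4, hcard, Nat.cast_pow]
  have h5 : ((p : ℝ) ^ P.natDegree) ^ B.r / ((p : ℝ) ^ P.natDegree) ^ (T.ncard + s₀) ≤ 1 := by
    rw [div_le_one (by positivity)]
    exact pow_le_pow_right₀ hQ1.le hr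
  calc _ ≤ 1 * ((p : ℝ) ^ P.natDegree / (p * ((p : ℝ) ^ P.natDegree - 1))) :=
        mul_le_mul_of_nonneg_right h5 hθ
    _ = _ := one_mul _

theorem momb1n (hMOM : N_MOMW) (hABS : N_ABS) (hANH : N_ANH) (hANA : N_ANA) (hBRU : N_BRU)
    (hBRK : N_BRK) (hMT : MTW) (hMT0 : MT₀W) (hHYP : V_HYP) (hHYP0 : V_HYP0) (hEXB : V_EXB)
    (hEXT : M_EXT1) : MOMB1N := by
  classical
  intro p hpF L K K₁ J M₂ _ _ _ _ _ _ _ _ _ _ _ _ _ ε a₀ hs hμ T hTc hTn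
  have hp : p.Prime := hpF.out
  have hirr : Fact (Irreducible (X - 1 : (ZMod p)[X])) := ⟨hs.sit.irr⟩
  have hP0 : (X - 1 : (ZMod p)[X]) ≠ 0 := hs.sit.irr.ne_zero
  have hfinA : Module.Finite (ZMod p) (AdjoinRoot (X - 1 : (ZMod p)[X])) :=
    (AdjoinRoot.powerBasis hP0).finite
  have hfA : Finite (AdjoinRoot (X - 1 : (ZMod p)[X])) := Module.finite_of_finite (ZMod p)
  let instA : Fintype (AdjoinRoot (X - 1 : (ZMod p)[X])) := Fintype.ofFinite _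
  have hdeg : (X - 1 : (ZMod p)[X]).natDegree = 1 := by
    have h := natDegree_X_sub_C (1 : ZMod p)
    rwa [map_one] at h
  have hcard : Fintype.card (AdjoinRoot (X - 1 : (ZMod p)[X])) = p := by
    rw [Module.card_eq_pow_finrank (K := ZMod p) (V := AdjoinRoot (X - 1 : (ZMod p)[X])),
      ZMod.card, (AdjoinRoot.powerBasis hP0).finrank, AdjoinRoot.powerBasis_dim, hdeg, pow_one]
  have := hs.sit.gK
  have hC : Cyc p K K₁ ε := ⟨hs.sit.prim, hs.sit.gK, hs.sit.gen⟩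
  have h2K := Pool.Agent.Helper90.LE.l_cyc p K K₁ ε hC
  have hcK : IsTotallyComplex K₁ := h2K.2.2.2 (Pool.Agent.Helper77.PPO.p_ne_two p K hμ)
  have hnt : NTV p K₁ ε (1 : K ≃ₐ[K] K) (X - 1 : (ZMod p)[X]) := by
    refine Pool.Agent.Helper76.PP.ntv_one p K K₁ ε hC.prim hC.gen ?_
    have h2 : 0 < Module.finrank K K₁ := Module.finrank_pos
    rcases Nat.lt_or_ge 1 (Module.finrank K K₁) with h | h
    · exact h
    · exact absurd (h2K.2.2.1.1 (by omega)) hμ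
  obtain ⟨B, ⟨D⟩⟩ := hEXB p K K K₁ K₁ J M₂ ε 1 (X - 1) a₀ hs
  have hr : B.r ≤ B.S.card + Units.rank K :=
    rank1' Pool.Agent.Helper88.LE.l_sun hC.prim hC.gen hμ B
  have hp1 : (1 : ℝ) < p := by exact_mod_cast hp.one_lt
  have hp0 : (0 : ℝ) < p := by linarith
  have hpp : (0 : ℝ) < (p : ℝ) - 1 := by linarith
  have hθ : (0 : ℝ) ≤ (p : ℝ) ^ (Units.rank K + 1) / (p ^ T.ncard * (p - 1)) := by
    positivity
  have hcd : ∀ n : ℕ, (Fintype.card (Fin n → AdjoinRoot (X - 1 : (ZMod p)[X])) : ℝ) =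
      (p : ℝ) ^ n := by
    intro n
    rw [Fintype.card_fun, hcard, Fintype.card_fin, Nat.cast_pow]
  obtain ⟨l, hl⟩ := hs.degJ
  have hval : ∀ aτ : K₁ˣ, NiceU p aτ → ∀ Q : HeightOneSpectrum (𝓞 K₁),
      Q.valuation K₁ (p : K₁) < 1 → (p : ℤ) ∣ ordv Q (aτ : K₁) := fun aτ hnice Q hQ =>
    nice_val hnice Q ((Q.valuation_lt_one_iff_mem (K := K₁) (p : 𝓞 K₁)).1 (by simpa using hQ))
  by_cases hJ : finrank K J = 1
  · obtain ⟨g, K₀, hslow, hH⟩ := hHYP0 p K K K₁ K₁ J M₂ ε 1 (X - 1) a₀ hs hnt B D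
    refine hMOM hABS p L K K K₁ K₁ J M₂ ε 1 (X - 1) a₀ hs T B D g K₀ hslow _ hθ
      (B.S.card + T.ncard) ?_
    intro aτ haτ hnice
    obtain ⟨E, hE⟩ := (hEXT p L K K₁ J M₂ ε a₀ hs hμ T B D aτ haτ (hval aτ hnice)).1 hJ
    obtain ⟨ψ, K', hHyp, c, X₁, hc, hlow⟩ := hH _ E.toTauF aτ haτ hE
    refine (fun h => ⟨E, hANH hANA hBRU hBRK p K K K₁ K₁ ε 1 (X - 1) B _ E.toTauF
      (Spl M₂ B.S) D.s0 aτ ψ g K' hHyp K₀ hslow c X₁ hc hlow
      ((p : ℝ) ^ (Units.rank K + 1) / (p ^ T.ncard * (p - 1))) hθ (mt0w_le hMT0 hHyp h)⟩) ?_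
    rw [hcd, hcd, hcard, div_mul_div_comm, div_le_div_iff₀ (by positivity) (by positivity)]
    have h3 : (p : ℝ) ^ B.r ≤ p ^ (B.S.card + Units.rank K) := pow_le_pow_right₀ hp1.le hr
    calc (p : ℝ) ^ B.r * p * (p ^ T.ncard * (p - 1))
        ≤ p ^ (B.S.card + Units.rank K) * p * (p ^ T.ncard * (p - 1)) := by gcongr
      _ = p ^ (Units.rank K + 1) * (p ^ (B.S.card + T.ncard) * (p - 1)) := by ring
  · have hl0 : l ≠ 0 := by
      rintro rfl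
      exact hJ (by rw [hl, pow_zero])
    have hJ' : 1 < finrank K J := by
      have h0 : 0 < finrank K J := finrank_pos
      omega
    have hM₂ : 1 < finrank K₁ M₂ := by
      -- `[M₂ : K]` is divisible by `p`
      by_contra hcon
      have h0 : 0 < finrank K₁ M₂ := finrank_pos
      have h1 : finrank K₁ M₂ = 1 := by omega
      have := tow_K hs.toSitB
      have := hs.t4
      have h2 : finrank K K₁ * finrank K₁ M₂ = finrank K M₂ := finrank_mul_finrank K K₁ M₂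
      have h3 : finrank K J * finrank J M₂ = finrank K M₂ := finrank_mul_finrank K J M₂
      have h4 : p ∣ finrank K K₁ := by
        rw [h1, mul_one] at h2
        rw [h2, ← h3, hl]
        exact (dvd_pow_self p hl0).mul_right _
      have h5 : finrank K K₁ ∣ p - 1 :=
        Pool.Agent.Helper14.RD.finrank_dvd_pred p K K₁ ε hC.prim hC.gen
      have h6 := Nat.le_of_dvd (by have := hp.one_lt; omega) (h4.trans h5)
      have := hp.one_lt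
      omega
    obtain ⟨g, K₀, hslow, hH⟩ := hHYP p K K K₁ K₁ J M₂ ε 1 (X - 1) a₀ hs hnt hM₂ B D
    refine hMOM hABS p L K K K₁ K₁ J M₂ ε 1 (X - 1) a₀ hs T B D g K₀ hslow _ hθ
      (B.S.card + T.ncard - 1) ?_
    intro aτ haτ hnice
    obtain ⟨E, hE⟩ := (hEXT p L K K₁ J M₂ ε a₀ hs hμ T B D aτ haτ (hval aτ hnice)).2 hJ'
    obtain ⟨ψ, ψ₁, K', hHyp, c, X₁, hc, hlow⟩ := hH _ E.toTauF aτ haτ hE
    refine (fun h => ⟨E, hANH hANA hBRU hBRK p K K K₁ K₁ ε 1 (X - 1) B _ E.toTauF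
      (Spl M₂ B.S) D.s0 aτ ψ g K' (hyp0_of_hyp hHyp) K₀ hslow c X₁ hc hlow
      ((p : ℝ) ^ (Units.rank K + 1) / (p ^ T.ncard * (p - 1))) hθ (mtw_le hMT hHyp h)⟩) ?_
    rw [hcd, hcd, hcard, div_mul_div_comm, div_le_div_iff₀ (by positivity) (by positivity)]
    have h3 : (p : ℝ) ^ B.r ≤ p ^ (B.S.card + Units.rank K) := pow_le_pow_right₀ hp1.le hr
    have h4 : B.S.card + T.ncard = (B.S.card + T.ncard - 1) + 1 := by omega
    calc (p : ℝ) ^ B.r * p * (p ^ T.ncard * (p - 1))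
        ≤ p ^ (B.S.card + Units.rank K) * p * (p ^ T.ncard * (p - 1)) := by gcongr
      _ = p ^ (Units.rank K + 1) * (p ^ (B.S.card + T.ncard) * (p - 1)) := by ring
      _ = p ^ (Units.rank K + 1) * (p ^ (B.S.card + T.ncard - 1) * (p * (p - 1))) := by
        rw [h4, pow_succ, Nat.add_sub_cancel]
        ring

/-- **Packet ND-N_MB.** -/
theorem n_mb : N_MB := by
  intro hMOM hABS hANH hANA hBRU hBRK hMT hMT0 hHYP hHYP0 hEXB hEXT hALN hEXT1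
  exact ⟨mombn hMOM hABS hANH hANA hBRU hBRK hMT hHYP hEXB hEXT hALN,
    momb1n hMOM hABS hANH hANA hBRU hBRK hMT hMT0 hHYP hHYP0 hEXB hEXT1⟩

end Pool.Agent.Helper98.ND
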